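import Pool.Agent.T2H07.TS.Main

/-!
Dominant rational self-maps of projective varieties: the dynamical degrees and the Kodaira dimensions
of the rank one subsheaves of the tensor powers of the cotangent sheaf.
-/

set_option autoImplicit false

open FF Pool.Agent.W602.GT Pool.Agent.Y172
open Pool.Agent.R887 (Tensor TensorKodairaGe Special HolomorphicTensor mapDegree)
open Pool.Agent.T2H06.DYR (DynDegree)

namespace Pool.Agent.Results.MP_9410e4_ag.SelfMapTensors

/-- Let `f` be a dominant rational self-map, of any degree, of a projective variety `X` over `ℂ` of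
dimension `n > 0`, with generic point `y`, and `φ = f^*`. The dynamical degrees
`δ 0 = 1, …, δ n = deg f` of `f` exist, and are at least one. If a rank one subsheaf of
`(Ω¹)^(⊗ r)` has Kodaira dimension at least `j`, then the largest dynamical degree is attained
`j + 1` times in a row. If the largest dynamical degree is attained only once, then `X` is special,
and all holomorphic sections of `(Ω¹)^(⊗ r)` which are linearly independent over `ℂ` are linearly
independent over the field of rational functions; so there are at most `n ^ r` of them. -/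
theorem result {K : Type} [Field K] [Algebra ℂ K] {N n : ℕ} {y : Fin (N + 1) → K}
    (hy : NormalModel y) (hn : Algebra.trdeg ℂ K = n) (hn0 : 0 < n) (φ : K →ₐ[ℂ] K) :
    ∃ δ : ℕ → ℝ, (∀ p ≤ n, 1 ≤ δ p ∧ DynDegree y n φ p (δ p)) ∧ δ 0 = 1 ∧
      δ n = mapDegree φ ∧
      (∀ (r : ℕ) (σ : Tensor K r), σ ≠ 0 → ∀ j, TensorKodairaGe n ∅ σ j →
        ∃ q, q + j ≤ n ∧ ∀ i ≤ j, ∀ p ≤ n, δ p ≤ δ (q + i)) ∧
      ∀ q ≤ n, (∀ p ≤ n, p ≠ q → δ p < δ q) →
        Special n (∅ : Set (Place ℂ K)) ∧
          ∀ (r l : ℕ) (τ : Fin l → Tensor K r), (∀ i, HolomorphicTensor n (τ i)) →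
            LinearIndependent ℂ τ → LinearIndependent K τ ∧ l ≤ n ^ r := by
  obtain ⟨δ, h1, h2, h3, h4⟩ := T2H07.TS.selfmap hy hn hn0 φ
  refine ⟨δ, h1, h2, h3, h4, fun q hq hmax => T2H07.TS.special_of_unique hn fun r σ hσ hk => ?_⟩
  obtain ⟨q', hq', h5⟩ := h4 r σ hσ 1 hk
  have h6 := h5 0 (by omega) q hq
  have h7 := h5 1 le_rfl q hq
  by_cases h8 : q' = q
  · exact absurd (hmax (q' + 1) hq' (by omega)) (not_lt.2 h7)
  · exact absurd (hmax q' (by omega) h8) (not_lt.2 (by simpa using h6))

end Pool.Agent.Results.MP_9410e4_ag.SelfMapTensors
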