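import Pool.Agent.T2H41.PB

/-!
MP_9410e4_ag, Q1 in its logarithmic form: special quasi-projective varieties, integral points and entire
curves, for the closed subsets of the complements of coordinate hyperplanes in projective toric
varieties which are given by few monomials.

`ToricSparse U s N F` (`Pool/Agent/T2H41/LA.lean`): each form `F e` has at most two monomials, with
arbitrary exponents, or it has at most `s` monomials, and the exponents in it of the `x_j`, `j` not in
`U`, are divisible by some `N' ≥ N`. (The forms with two monomials can be, for suitable coefficients,
the equations of an arbitrary projective toric variety `T`, so the other forms define a subvariety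
of `T`.)

`SubVarU U F K w y`, `IsComponentU U F y` (`Pool/Agent/W602/GT`): `V` is an irreducible component, of
dimension `w`, of the quasi-projective variety `{F = 0, x_j ≠ 0 for j in U}`, with function field `K`
and generic point `y`. For `U = ∅` it is projective. `Special k K w (OffU U y)`
(`W602/GT/SpecDefs.lean`): there is no Bogomolov sheaf of logarithmic forms, with the boundary given by
the `x_j = 0`, `j` in `U`. `IsTorusOrbit`, `UnitsDense`: see `Pool/Agent/T2H41/PB.lean`.
`BrodySpecial U y` (`W602/GT/BroDefs.lean`): there is a Zariski-dense entire curve in `V`.
-/

set_option autoImplicit false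
set_option linter.overlappingInstances false

open FF Pool.Agent.W602.GT Pool.Agent.T2H41.LA

namespace Pool.Agent.Results.MP_9410e4_ag.ToricLogSpecial

/-- Let `V` be a component of the quasi-projective variety `{F = 0, x_j ≠ 0 for j in U}` as above, and
let `N ≥ n (s + 1) (s - 1) (s - 2) / 2`. Then `V` is special, in the logarithmic sense, if and only if
it is the closure of an orbit of a torus, and then the unit points are potentially dense: for some
finitely generated group `Γ` of nonzero elements of `k` the points of `V` with homogeneous coordinates in
`Γ ∪ {0}` are Zariski-dense. For `k = ℂ` this is so if and only if `V` contains a Zariski-dense entire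
curve. -/
theorem result {n : ℕ} {ι : Type} {s N : ℕ} (hN : n * ((s + 1) * ((s - 1) * (s - 2) / 2)) ≤ N)
    (U : Set (Fin (n + 1))) :
    (∀ {k : Type} [Field k] [IsAlgClosed k] [CharZero k] {F : ι → MvPolynomial (Fin (n + 1)) k},
      ToricSparse U s N F → ∀ {K : Type} [Field K] [Algebra k K] {w : ℕ} {y : Fin (n + 1) → K},
      SubVarU U F K w y → IsComponentU U F y →
      (Special k K w (OffU U y) ↔ IsTorusOrbit k w y) ∧
        (Special k K w (OffU U y) → UnitsDense U k y)) ∧
    ∀ {F : ι → MvPolynomial (Fin (n + 1)) ℂ}, ToricSparse U s N F → ∀ {K : Type} [Field K]
      [Algebra ℂ K] {w : ℕ} {y : Fin (n + 1) → K}, SubVarU U F K w y → IsComponentU U F y →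
      (Special ℂ K w (OffU U y) ↔ BrodySpecial U y) := by
  refine ⟨?_, ?_⟩
  · intro k _ _ _ F hF K _ _ w y hy hcomp
    exact special_toric hF hN hy hcomp
  · intro F hF K _ _ w y hy hcomp
    exact special_brody hF hN hy hcomp

end Pool.Agent.Results.MP_9410e4_ag.ToricLogSpecial
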