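import Pool.Agent.T2H41.PC

/-!
MP_9410e4_ag, Q1: special varieties and potential density for the varieties dominated by subvarieties of
projective toric varieties given by few monomials.

`HighT s N F` (`Pool/Agent/T2H41/LB.lean`): the forms `F e` are sums of at most `s` powers of linear
forms, with exponents at least `N`; or each `F e` has at most two monomials, with arbitrary exponents,
or it has at most `s` monomials (`s ≥ 2`), whose exponents are divisible by some `N' ≥ N`. (The forms
with two monomials can be, for suitable coefficients, the equations of an arbitrary projective toric
variety, so the other forms define a subvariety of it.)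

`V` is an irreducible component, of dimension `w`, of `{F = 0}`, with function field `K` and generic
point `y` (`SubVar`, `IsComponent`, `Pool/Agent/W602/GT`). `L` is the function field of a projective
variety `X` with a dominant rational map `V ⇢ X`, of finite degree; all notions below are birational
invariants of `X`. `IsRationalVar k K w` (`Pool/Agent/T2H41/PC.lean`): `V` is rational.

`Special k L w ∅` (`W602/GT/SpecDefs.lean`): there is no Bogomolov sheaf on `X`. `GeneralType k M b`:
the variety with function field `M` has dimension `b` and is of general type. `TensorVanish k L w`
(`W619/TW/MDefs.lean`): there are no nonzero tensor differentials. `IsUnirational`: `W619/TW`.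
`PotentiallyDense k x` (`TH466/QT/Den.lean`): for some finitely generated subfield of `k` (a number
field, if `k` is the field of algebraic numbers) the points of `X` with coordinates in this field are
Zariski-dense.
-/

set_option autoImplicit false
set_option linter.overlappingInstances false

open FF Pool.Agent.W602.GT Pool.Agent.T2H41.LA
open Pool.Agent.W619.TW (IsUnirational TensorVanish)
open Pool.Agent.TH466.QT (PotentiallyDense)

namespace Pool.Agent.Results.MP_9410e4_ag.ToricSpecial

/-- Let `k` be an algebraically closed field of characteristic zero and `V` as above.

**(1)** Let `w ≥ 1` and `N ≥ 4 w 10 ^ s (r + 1) ^ 7`, `r ≥ 1`. The following are equivalent: `V` is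
rational; `V` is special; `V` is unirational; some variety `X` dominated by `V` with degree at most `r`
is special; some variety `X` dominated by `V` with degree at most `r` dominates no positive-dimensional
variety of general type. Moreover, if `X` is dominated by `V` with degree at most `r`, and if `X` is
special, or has no nonzero tensor differentials, or dominates no positive-dimensional variety of general
type, then `V` is rational, and `X` is unirational and potentially dense.

**(2)** Let `N ≥ r w (s + 4) (s - 1) (s - 2) / 2`. Let `X' ⇢ V` be a generically finite dominant
rational map of any degree, and let `X' ⇢ X` be a quotient by a group of order at most `r`, or of degree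
`d` with `d ! ≤ r`. If `X` is special, or has no nonzero tensor differentials, or dominates no
positive-dimensional variety of general type, then `V` is rational. -/
theorem result {k : Type} [Field k] [IsAlgClosed k] [CharZero k] {n : ℕ} {ι : Type} {s N : ℕ}
    {F : ι → MvPolynomial (Fin (n + 1)) k} (hF : HighT s N F) {K : Type} [Field K] [Algebra k K]
    {w : ℕ} {y : Fin (n + 1) → K} (hy : SubVar F K w y) (hcomp : IsComponent F y) {r : ℕ} :
    (1 ≤ w → 1 ≤ r → w * (4 * 10 ^ s * (r + 1) ^ 7) ≤ N →
      [IsRationalVar k K w, Special k K w (fun _ => False), IsUnirational k K w,
        ∃ (L : Type) (_ : Field L) (_ : Algebra k L) (_ : Algebra L K), IsScalarTower k L K ∧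
          FiniteDimensional L K ∧ Module.finrank L K ≤ r ∧ Special k L w (fun _ => False),
        ∃ (L : Type) (_ : Field L) (_ : Algebra k L) (_ : Algebra L K), IsScalarTower k L K ∧
          FiniteDimensional L K ∧ Module.finrank L K ≤ r ∧
          ∀ (b : ℕ) (M : IntermediateField k L), 1 ≤ b → ¬ GeneralType k M b].TFAE ∧
      ∀ (L : Type) [Field L] [Algebra k L] [Algebra L K] [IsScalarTower k L K]
        [FiniteDimensional L K], Module.finrank L K ≤ r →
        (Special k L w (fun _ => False) ∨ TensorVanish k L w ∨
          ∀ (b : ℕ) (M : IntermediateField k L), 1 ≤ b → ¬ GeneralType k M b) →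
        IsRationalVar k K w ∧ IsUnirational k L w ∧ ∀ (M : ℕ) (x : Fin (M + 1) → L), x ≠ 0 →
          coords k x = ⊤ → PotentiallyDense k x) ∧
    (1 ≤ N → r * (w * ((s + 4) * ((s - 1) * (s - 2) / 2))) ≤ N →
      ∀ (K' L : Type) [Field K'] [Field L] [Algebra k K'] [Algebra k L] [Algebra K K']
        [Algebra L K'] [IsScalarTower k K K'] [IsScalarTower k L K'] [Algebra.IsAlgebraic K K']
        [FiniteDimensional L K'], ((IsGalois L K' ∧ Module.finrank L K' ≤ r) ∨
          (Module.finrank L K').factorial ≤ r) →
        (Special k L w (fun _ => False) ∨ TensorVanish k L w ∨
          ∀ (b : ℕ) (M : IntermediateField k L), 1 ≤ b → ¬ GeneralType k M b) →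
        IsRationalVar k K w) := by
  refine ⟨fun hw hr hN => dom_tfae hF hw hr hN hy hcomp, fun hN1 hN K' L => ?_⟩
  intro _ _ _ _ _ _ _ _ _ _ hr h
  exact corr_special hF hN1 hN hy hcomp K' L hr h

end Pool.Agent.Results.MP_9410e4_ag.ToricSpecial
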