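import Pool.Agent.T2H07.TS.TrMain

/-!
The invariant rational functions and the translation factors of dominant rational self-maps, and the
Kodaira dimensions of the rank one subsheaves of the tensor powers of the cotangent sheaf.
-/

set_option autoImplicit false

open FF Pool.Agent.W602.GT Pool.Agent.Y172
open Pool.Agent.R887 (Tensor TensorKodairaGe Special HolomorphicTensor)

namespace Pool.Agent.Results.MP_9410e4_ag.TranslationFactors

/-- Let `X` be a projective variety over `ℂ` of dimension `n > 0`, with generic point `y`, and `f` a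
dominant rational self-map of `X`, of any degree, whose field of invariant rational functions has
transcendence degree `d`; `φ = f^*`. If some rank one subsheaf of some `(Ω¹)^(⊗ r)` has Kodaira
dimension at least `j`, then `f` is semi-conjugate to a translation of a torus, or of the product of a
torus and the additive group, of dimension `j - d`, by functions which are algebraically independent
over the invariant functions. Hence, if all rational functions `h` with `f^* h = μ h` or
`f^* h = h + 1` are invariant, then all these Kodaira dimensions are at most `d`, and, if `d = 0`, `X`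
is special, and holomorphic sections of `(Ω¹)^(⊗ r)` which are linearly independent over `ℂ` are
linearly independent over the field of rational functions, so there are at most `n ^ r` of them. -/
theorem result {K : Type} [Field K] [Algebra ℂ K] {N n : ℕ} {y : Fin (N + 1) → K}
    (hy : NormalModel y) (hn : Algebra.trdeg ℂ K = n) (hn0 : 0 < n) (φ : K →ₐ[ℂ] K) {d : ℕ}
    (hd : Algebra.trdeg ℂ (T2H07.TS.fixed φ) = d) :
    (∀ (r : ℕ) (σ : Tensor K r), σ ≠ 0 → ∀ j, TensorKodairaGe n ∅ σ j →
        T2H07.TS.TranslationFactor φ (j - d)) ∧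
      ((∀ h ∈ T2H07.TS.semi φ, h ∈ T2H07.TS.fixed φ) →
        (∀ (r : ℕ) (σ : Tensor K r), σ ≠ 0 → ∀ j, TensorKodairaGe n ∅ σ j → j ≤ d) ∧
        (d = 0 → Special n (∅ : Set (Place ℂ K)) ∧
          ∀ (r l : ℕ) (τ : Fin l → Tensor K r), (∀ i, HolomorphicTensor n (τ i)) →
            LinearIndependent ℂ τ → LinearIndependent K τ ∧ l ≤ n ^ r)) := by
  have hmain : ∀ (r : ℕ) (σ : Tensor K r), σ ≠ 0 → ∀ j, TensorKodairaGe n ∅ σ j →
      T2H07.TS.TranslationFactor φ (j - d) :=
    fun r σ hσ j h => T2H07.TS.trans_factor hy hn hn0 hd hσ h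
  have hle : (∀ h ∈ T2H07.TS.semi φ, h ∈ T2H07.TS.fixed φ) →
      ∀ (r : ℕ) (σ : Tensor K r), σ ≠ 0 → ∀ j, TensorKodairaGe n ∅ σ j → j ≤ d := by
    intro hsemi r σ hσ j hk
    by_contra hj
    obtain ⟨h, hind, μ, I, -, hI, hI', -⟩ := hmain r σ hσ j hk
    have hpos : 0 < j - d := by omega
    obtain ⟨i, -⟩ : ∃ i : Fin (j - d), i = ⟨0, hpos⟩ := ⟨_, rfl⟩
    have h1 : h i ∈ T2H07.TS.semi φ := by
      by_cases h0 : i ∈ I
      · exact Or.inr (hI i h0)
      · exact Or.inl ⟨μ i, hI' i h0⟩
    have h2 : Transcendental (T2H07.TS.fixed φ) (h i) := hind.transcendental i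
    exact h2 (isAlgebraic_algebraMap (⟨h i, hsemi _ h1⟩ : T2H07.TS.fixed φ))
  refine ⟨hmain, fun hsemi => ⟨hle hsemi, ?_⟩⟩
  rintro rfl
  refine T2H07.TS.special_of_unique hn fun r σ hσ hk => ?_
  exact absurd (hle hsemi r σ hσ 1 hk) (by omega)

end Pool.Agent.Results.MP_9410e4_ag.TranslationFactors
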